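import Pool.Agent.Q173.KS.Stm

/-!
Job KS-JOIN: bisection and shuffles of the halves give a shuffle.
-/

set_option autoImplicit false

namespace Pool.Agent.Q160.KS

open Pool.Agent.Q173.KS Finset

/-- extension of an injective map -/
lemma ext_inj {I : Type} [Fintype I] [DecidableEq I] {j : ℕ} (hj : j ≤ Fintype.card I)
    (A : Finset (Fin j)) (c : Fin j → I) (hc : Set.InjOn c A) :
    ∃ c' : Fin j → I, Function.Injective c' ∧ ∀ i ∈ A, c' i = c i := by
  have hA : (A.image c).card ≤ j := by
    refine Finset.card_image_le.trans ?_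
    have := Finset.card_le_univ A
    rwa [Fintype.card_fin] at this
  obtain ⟨t, ht1, _, ht3⟩ := Finset.exists_subsuperset_card_eq (s := A.image c) (t := univ) (n := j)
    (Finset.subset_univ _) hA (by rw [Finset.card_univ]; exact hj)
  obtain ⟨g, hg⟩ := Finset.exists_equiv_extend_of_card_eq (α := Fin j) (t := t)
    (by rw [Fintype.card_fin, ht3]) (s := A) (f := c) ht1 hc
  exact ⟨fun i => g i, fun a b hab => g.injective (Subtype.ext hab), hg⟩

/-- the images under the two shuffles of the halves -/
lemma two_apply {I : Type} [DecidableEq I] (τL τR : Equiv.Perm I) (z : Bool × I) :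
    (τR.viaEmbedding (emR I)) ((τL.viaEmbedding (emL I)) z) =
      if z.1 then (true, τR z.2) else (false, τL z.2) := by
  rcases z with ⟨b, c⟩
  cases b
  · have h1 : (τL.viaEmbedding (emL I)) (false, c) = (false, τL c) :=
      Equiv.Perm.viaEmbedding_apply τL (emL I) c
    have h2 : (τR.viaEmbedding (emR I)) (false, τL c) = (false, τL c) := by
      apply Equiv.Perm.viaEmbedding_apply_of_notMem
      rintro ⟨y, hy⟩
      have h3 : true = false := (Prod.mk.inj hy).1
      exact absurd h3 (by decide)
    rw [h1, h2]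
    rfl
  · have h1 : (τL.viaEmbedding (emL I)) (true, c) = (true, c) := by
      apply Equiv.Perm.viaEmbedding_apply_of_notMem
      rintro ⟨y, hy⟩
      have h3 : false = true := (Prod.mk.inj hy).1
      exact absurd h3 (by decide)
    have h2 : (τR.viaEmbedding (emR I)) (true, c) = (true, τR c) :=
      Equiv.Perm.viaEmbedding_apply τR (emR I) c
    rw [h1, h2]
    rfl

/-- the second part -/
noncomputable def GA {I : Type} [DecidableEq I] (ℓ : List (Op I)) {j : ℕ}
    (F : (Fin j → Bool × I) → ℝ) (y : Fin j → Bool × I) : ℝ :=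
  EP (ℓ.map (Op.map (emL I)) ++ ℓ.map (Op.map (emR I))) (fun σ => F (fun i => σ (y i)))

lemma GA_eq {I : Type} [DecidableEq I] (ℓ : List (Op I)) {j : ℕ}
    (F : (Fin j → Bool × I) → ℝ) (y : Fin j → Bool × I) :
    GA ℓ F y = EP ℓ (fun τL => EP ℓ (fun τR =>
      F (fun i => if (y i).1 then (true, τR (y i).2) else (false, τL (y i).2)))) := by
  unfold GA
  rw [EP_append, EP_map]
  congr 1
  funext τL
  rw [EP_map]
  congr 1
  funext τR
  congr 1
  funext i
  exact two_apply τL τR (y i)

lemma GA_side {I : Type} [Fintype I] [DecidableEq I] {ℓ : List (Op I)} {k j : ℕ} (hU : Uni k ℓ)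
    (hj : j ≤ k) (hk : k ≤ Fintype.card I) (F : (Fin j → Bool × I) → ℝ) (y y' : Fin j → Bool × I)
    (hy : Function.Injective y) (hy' : Function.Injective y') (hs : ∀ i, (y i).1 = (y' i).1) :
    GA ℓ F y = GA ℓ F y' := by
  have hext : ∀ (b : Bool) (z : Fin j → Bool × I), Function.Injective z →
      ∃ c : Fin j → I, Function.Injective c ∧ ∀ i, (z i).1 = b → c i = (z i).2 := by
    intro b z hz
    obtain ⟨c, hc1, hc2⟩ := ext_inj (hj.trans hk) (univ.filter (fun i => (z i).1 = b))
      (fun i => (z i).2) (by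
        intro i hi i' hi' h
        rw [Finset.mem_coe, Finset.mem_filter] at hi hi'
        exact hz (Prod.ext (hi.2.trans hi'.2.symm) h))
    exact ⟨c, hc1, fun i hi => hc2 i (Finset.mem_filter.mpr ⟨Finset.mem_univ i, hi⟩)⟩
  obtain ⟨cL, hcL, hcL'⟩ := hext false y hy
  obtain ⟨cR, hcR, hcR'⟩ := hext true y hy
  obtain ⟨dL, hdL, hdL'⟩ := hext false y' hy'
  obtain ⟨dR, hdR, hdR'⟩ := hext true y' hy'
  rw [GA_eq, GA_eq]
  have e1 : ∀ τL τR : Equiv.Perm I,
      (fun i => if (y i).1 then (true, τR (y i).2) else (false, τL (y i).2)) =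
        fun i => if (y i).1 then (true, τR (cR i)) else (false, τL (cL i)) := by
    intro τL τR
    funext i
    cases h : (y i).1
    · simp [hcL' i h]
    · simp [hcR' i h]
  have e2 : ∀ τL τR : Equiv.Perm I,
      (fun i => if (y' i).1 then (true, τR (y' i).2) else (false, τL (y' i).2)) =
        fun i => if (y i).1 then (true, τR (dR i)) else (false, τL (dL i)) := by
    intro τL τR
    funext i
    rw [hs i]
    cases h : (y' i).1
    · simp [hdL' i h]
    · simp [hdR' i h]
  calc EP ℓ (fun τL => EP ℓ (fun τR =>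
          F (fun i => if (y i).1 then (true, τR (y i).2) else (false, τL (y i).2))))
      = EP ℓ (fun τL => EP ℓ (fun τR =>
          F (fun i => if (y i).1 then (true, τR (cR i)) else (false, τL (cL i))))) := by
        congr 1
        funext τL
        congr 1
        funext τR
        rw [e1]
    _ = EP ℓ (fun τL => EP ℓ (fun τR =>
          F (fun i => if (y i).1 then (true, τR (dR i)) else (false, τL (cL i))))) := by
        congr 1
        funext τL
        exact hU j hj (fun z => F (fun i => if (y i).1 then (true, z i) else (false, τL (cL i))))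
          cR dR hcR hdR
    _ = EP ℓ (fun τL => EP ℓ (fun τR =>
          F (fun i => if (y i).1 then (true, τR (dR i)) else (false, τL (dL i))))) :=
        hU j hj (fun z => EP ℓ (fun τR =>
          F (fun i => if (y i).1 then (true, τR (dR i)) else (false, z i)))) cL dL hcL hdL
    _ = EP ℓ (fun τL => EP ℓ (fun τR =>
          F (fun i => if (y' i).1 then (true, τR (y' i).2) else (false, τL (y' i).2)))) := by
        congr 1
        funext τL
        congr 1
        funext τR
        rw [e2]

/-- sign of a side -/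
noncomputable def sb (b : Bool) : ℝ := if b then -1 else 1

lemma ind_expand {j : ℕ} (s s' : Fin j → Bool) : (if s = s' then (1 : ℝ) else 0) =
    ∑ T : Finset (Fin j), ((1 / 2) ^ j * ∏ i ∈ T, sb (s' i)) * ∏ i ∈ T, sb (s i) := by
  have h1 : (if s = s' then (1 : ℝ) else 0) = ∏ i : Fin j, ((1 / 2) * (1 + sb (s' i) * sb (s i))) := by
    split_ifs with h
    · rw [h]
      symm
      apply Finset.prod_eq_one
      intro i _
      unfold sb
      cases s' i <;> norm_num
    · obtain ⟨i, hi⟩ := Function.ne_iff.mp h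
      symm
      apply Finset.prod_eq_zero (Finset.mem_univ i)
      unfold sb
      revert hi
      cases s i <;> cases s' i <;> norm_num
  rw [h1, Finset.prod_mul_distrib, Finset.prod_const, Finset.card_univ, Fintype.card_fin,
    Finset.prod_one_add, Finset.mul_sum, Finset.powerset_univ]
  refine Finset.sum_congr rfl fun T _ => ?_
  rw [Finset.prod_mul_distrib]
  ring

lemma char_exp {j : ℕ} (g : (Fin j → Bool) → ℝ) :
    ∃ w : Finset (Fin j) → ℝ, ∀ s, g s = ∑ T : Finset (Fin j), w T * ∏ i ∈ T, sb (s i) := by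
  refine ⟨fun T => ∑ s', g s' * ((1 / 2) ^ j * ∏ i ∈ T, sb (s' i)), fun s => ?_⟩
  have h1 : g s = ∑ s', g s' * (if s = s' then (1 : ℝ) else 0) := by
    rw [Finset.sum_eq_single s]
    · rw [if_pos rfl, mul_one]
    · intro b _ hb
      rw [if_neg (Ne.symm hb), mul_zero]
    · intro h
      exact absurd (Finset.mem_univ s) h
  rw [h1]
  simp only [ind_expand, Finset.mul_sum, Finset.sum_mul]
  rw [Finset.sum_comm]
  refine Finset.sum_congr rfl fun T _ => Finset.sum_congr rfl fun s' _ => ?_
  ring

lemma EP_char {I : Type} [Fintype I] [DecidableEq I] {ℓ : List (Op (Bool × I))} {k j : ℕ}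
    {u : ℕ → ℝ} (hu : ∀ S : Finset (Bool × I), S.card ≤ k → ES ℓ Phi0 S = u S.card) (hj : j ≤ k)
    {x : Fin j → Bool × I} (hx : Function.Injective x) (T : Finset (Fin j)) :
    EP ℓ (fun σ => ∏ i ∈ T, sb (σ (x i)).1) = u T.card := by
  have hT : T.card ≤ k := by
    have := Finset.card_le_univ T
    rw [Fintype.card_fin] at this
    omega
  have h := hu (T.map ⟨x, hx⟩) (by rw [Finset.card_map]; exact hT)
  rw [Finset.card_map] at h
  rw [← h]
  unfold ES
  congr 1
  funext σ
  unfold Phi0
  rw [Finset.prod_map, Finset.prod_map]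
  rfl

theorem join : S_JOIN := by
  intro I _ _ k a b hk hA hB
  obtain ⟨ℓ0, hok0, hU, hlen0⟩ := hA
  obtain ⟨ℓb, hokb, ⟨u, hu⟩, hlenb⟩ := hB
  refine ⟨ℓb ++ (ℓ0.map (Op.map (emL I)) ++ ℓ0.map (Op.map (emR I))),
    hokb.append ((hok0.map (emL I)).append (hok0.map (emR I))), ?_, ?_⟩
  · intro j hj F x y hx hy
    obtain ⟨c0⟩ : Nonempty (Fin j ↪ I) :=
      Function.Embedding.nonempty_of_card_le (by rw [Fintype.card_fin]; exact hj.trans hk)
    obtain ⟨w, hw⟩ := char_exp (fun s => GA ℓ0 F (fun i => (s i, c0 i)))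
    have key : ∀ z : Fin j → Bool × I, Function.Injective z →
        EP ℓb (fun σ₁ => EP (ℓ0.map (Op.map (emL I)) ++ ℓ0.map (Op.map (emR I)))
          (fun σ₂ => F (fun i => (σ₂ * σ₁) (z i)))) = ∑ T : Finset (Fin j), w T * u T.card := by
      intro z hz
      have h1 : ∀ σ₁ : Equiv.Perm (Bool × I),
          EP (ℓ0.map (Op.map (emL I)) ++ ℓ0.map (Op.map (emR I)))
            (fun σ₂ => F (fun i => (σ₂ * σ₁) (z i))) =
            ∑ T : Finset (Fin j), w T * ∏ i ∈ T, sb (σ₁ (z i)).1 := by
        intro σ₁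
        have h2 : GA ℓ0 F (fun i => σ₁ (z i)) = GA ℓ0 F (fun i => ((σ₁ (z i)).1, c0 i)) :=
          GA_side hU hj hk F _ _ (σ₁.injective.comp hz)
            (fun a b h => c0.injective (Prod.mk.inj h).2) (fun i => rfl)
        exact h2.trans (hw (fun i => (σ₁ (z i)).1))
      rw [funext h1, EP_sum]
      refine Finset.sum_congr rfl fun T _ => ?_
      rw [EP_mul, EP_char hu hj hz]
    rw [EP_append, EP_append]
    exact (key x hx).trans (key y hy).symm
  · rw [List.length_append, List.length_append, List.length_map, List.length_map]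
    omega

end Pool.Agent.Q160.KS
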