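import Pool.Agent.Q173.KS.Stm

/-!
Job KS-ROOTS: coefficients close to those of the Chebyshev polynomial come from `k` numbers in `[-1,1]`.
-/

set_option autoImplicit false

namespace Pool.Agent.Q160.KS

open Pool.Agent.Q173.KS Finset

/-- coefficients of the limit series -/
noncomputable def ac (n j : ℕ) : ℝ := PowerSeries.coeff j (AA n)

lemma ac_rec (n j : ℕ) : ac (n + 2) j = ac (n + 1) j - 1 / 4 * (if 2 ≤ j then ac n (j - 2) else 0) := by
  unfold ac
  rw [AA, map_sub, mul_assoc, PowerSeries.coeff_C_mul, PowerSeries.coeff_X_pow_mul']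

lemma ac_zero : ∀ n : ℕ, (∀ j, n < j → ac n j = 0) ∧ ∀ j, n + 1 < j → ac (n + 1) j = 0 := by
  intro n
  induction n with
  | zero =>
    constructor
    · intro j hj
      unfold ac
      rw [AA]
      have h2 : (2 : PowerSeries ℝ) = PowerSeries.C (2 : ℝ) := (map_ofNat (PowerSeries.C (R := ℝ)) 2).symm
      rw [h2, PowerSeries.coeff_C, if_neg (by omega)]
    · intro j hj
      unfold ac
      rw [AA, PowerSeries.coeff_one, if_neg (by omega)]
  | succ n ih =>
    refine ⟨ih.2, fun j hj => ?_⟩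
    rw [ac_rec, ih.2 j (by omega)]
    split_ifs with h
    · rw [ih.1 (j - 2) (by omega)]
      ring
    · ring

/-- the polynomial with these coefficients -/
noncomputable def ff (n : ℕ) (x : ℝ) : ℝ := ∑ j ∈ range (n + 1), (-1) ^ j * ac n j * x ^ (n - j)

lemma ff_rec (n : ℕ) (x : ℝ) : ff (n + 2) x = x * ff (n + 1) x - 1 / 4 * ff n x := by
  unfold ff
  have h1 : ∑ j ∈ range (n + 2 + 1), (-1) ^ j * ac (n + 2) j * x ^ (n + 2 - j) =
      ∑ j ∈ range (n + 2 + 1), (-1) ^ j * ac (n + 1) j * x ^ (n + 2 - j) -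
        1 / 4 * ∑ j ∈ range (n + 2 + 1), (-1) ^ j * (if 2 ≤ j then ac n (j - 2) else 0) * x ^ (n + 2 - j) := by
    rw [Finset.mul_sum, ← Finset.sum_sub_distrib]
    refine Finset.sum_congr rfl fun j _ => ?_
    rw [ac_rec]
    ring
  rw [h1]
  congr 1
  · rw [Finset.sum_range_succ, (ac_zero n).2 (n + 2) (by omega), mul_zero, zero_mul, add_zero,
      Finset.mul_sum]
    refine Finset.sum_congr rfl fun j hj => ?_
    rw [Finset.mem_range] at hj
    have h2 : n + 2 - j = n + 1 - j + 1 := by omega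
    rw [h2, pow_succ]
    ring
  · congr 1
    rw [Finset.sum_range_succ', Finset.sum_range_succ']
    simp only [Nat.zero_add]
    rw [if_neg (by norm_num : ¬ 2 ≤ 1), if_neg (by norm_num : ¬ 2 ≤ 0), mul_zero, zero_mul, mul_zero,
      zero_mul, add_zero, add_zero]
    refine Finset.sum_congr rfl fun j _ => ?_
    rw [if_pos (by omega), show j + 1 + 1 - 2 = j by omega, show n + 2 - (j + 1 + 1) = n - j by omega,
      pow_succ, pow_succ]
    ring

lemma ff_cos (θ : ℝ) : ∀ n : ℕ, ff n (Real.cos θ) = 2 * Real.cos (n * θ) / 2 ^ n ∧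
    ff (n + 1) (Real.cos θ) = 2 * Real.cos ((n + 1 : ℕ) * θ) / 2 ^ (n + 1) := by
  intro n
  induction n with
  | zero =>
    have h0 : ac 0 0 = 2 := by
      unfold ac
      rw [AA]
      have h2 : (2 : PowerSeries ℝ) = PowerSeries.C (2 : ℝ) := (map_ofNat (PowerSeries.C (R := ℝ)) 2).symm
      rw [h2, PowerSeries.coeff_C, if_pos rfl]
    have h1 : ac 1 0 = 1 := by
      unfold ac
      rw [AA, PowerSeries.coeff_one, if_pos rfl]
    have h2 : ac 1 1 = 0 := by
      unfold ac
      rw [AA, PowerSeries.coeff_one, if_neg (by norm_num)]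
    constructor
    · unfold ff
      simp [h0]
    · unfold ff
      rw [Finset.sum_range_succ, Finset.sum_range_succ]
      simp [h1, h2]
  | succ n ih =>
    refine ⟨ih.2, ?_⟩
    rw [ff_rec, ih.1, ih.2]
    have h1 : Real.cos (((n + 1 + 1 : ℕ) : ℝ) * θ) =
        2 * Real.cos θ * Real.cos (((n + 1 : ℕ) : ℝ) * θ) - Real.cos ((n : ℝ) * θ) := by
      have e1 : ((n + 1 + 1 : ℕ) : ℝ) * θ = ((n + 1 : ℕ) : ℝ) * θ + θ := by push_cast; ring
      have e2 : (n : ℝ) * θ = ((n + 1 : ℕ) : ℝ) * θ - θ := by push_cast; ring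
      rw [e1, e2, Real.cos_add, Real.cos_sub]
      ring
    rw [h1]
    have h2 : (2 : ℝ) ^ n ≠ 0 := by positivity
    rw [pow_succ, pow_succ]
    field_simp
    ring

/-- the polynomial with coefficients `e` -/
noncomputable def pe (k : ℕ) (e : ℕ → ℝ) (x : ℝ) : ℝ := ∑ j ∈ range (k + 1), (-1) ^ j * e j * x ^ (k - j)

lemma pe_close {k : ℕ} {e : ℕ → ℝ} {η : ℝ} (he : ∀ j ≤ k, |e j - ac k j| ≤ η) {x : ℝ} (hx : |x| ≤ 1) :
    |pe k e x - ff k x| ≤ ((k : ℝ) + 1) * η := by
  unfold pe ff
  rw [← Finset.sum_sub_distrib]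
  calc |∑ j ∈ range (k + 1), ((-1) ^ j * e j * x ^ (k - j) - (-1) ^ j * ac k j * x ^ (k - j))|
      ≤ ∑ j ∈ range (k + 1), |(-1) ^ j * e j * x ^ (k - j) - (-1) ^ j * ac k j * x ^ (k - j)| :=
        Finset.abs_sum_le_sum_abs _ _
    _ ≤ ∑ _j ∈ range (k + 1), η := by
        refine Finset.sum_le_sum fun j hj => ?_
        rw [Finset.mem_range] at hj
        have h1 : (-1) ^ j * e j * x ^ (k - j) - (-1) ^ j * ac k j * x ^ (k - j) =
            (-1) ^ j * ((e j - ac k j) * x ^ (k - j)) := by ring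
        rw [h1, abs_mul, abs_pow, abs_neg, abs_one, one_pow, one_mul, abs_mul, abs_pow]
        have h2 : |x| ^ (k - j) ≤ 1 := pow_le_one₀ (abs_nonneg _) hx
        calc |e j - ac k j| * |x| ^ (k - j) ≤ |e j - ac k j| * 1 :=
              mul_le_mul_of_nonneg_left h2 (abs_nonneg _)
          _ ≤ η := by rw [mul_one]; exact he j (by omega)
    _ = ((k : ℝ) + 1) * η := by
        rw [Finset.sum_const, Finset.card_range, nsmul_eq_mul]
        push_cast
        ring

/-- the nodes -/
noncomputable def nd (k i : ℕ) : ℝ := Real.cos (i * Real.pi / k)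

lemma nd_abs (k i : ℕ) : |nd k i| ≤ 1 := Real.abs_cos_le_one _

lemma nd_lt {k i : ℕ} (hk : 1 ≤ k) (hi : i < k) : nd k (i + 1) < nd k i := by
  have hk' : (0 : ℝ) < k := by exact_mod_cast hk
  unfold nd
  apply Real.cos_lt_cos_of_nonneg_of_le_pi
  · positivity
  · rw [div_le_iff₀ hk', mul_comm Real.pi]
    apply mul_le_mul_of_nonneg_right _ Real.pi_pos.le
    exact_mod_cast hi
  · apply div_lt_div_of_pos_right _ hk'
    apply mul_lt_mul_of_pos_right _ Real.pi_pos
    push_cast
    linarith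

lemma nd_anti {k i j : ℕ} (hk : 1 ≤ k) (hij : i ≤ j) (hj : j ≤ k) : nd k j ≤ nd k i := by
  induction j, hij using Nat.le_induction with
  | base => exact le_refl _
  | succ j _ ih => exact (nd_lt hk (by omega)).le.trans (ih (by omega))

lemma ff_nd {k : ℕ} (hk : 1 ≤ k) (i : ℕ) : ff k (nd k i) = 2 * (-1) ^ i / 2 ^ k := by
  unfold nd
  rw [(ff_cos _ k).1]
  have hk' : (k : ℝ) ≠ 0 := by positivity
  have h1 : (k : ℝ) * (i * Real.pi / k) = i * Real.pi := by field_simp
  rw [h1, Real.cos_nat_mul_pi]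

lemma pe_cont (k : ℕ) (e : ℕ → ℝ) : Continuous (pe k e) := by
  unfold pe
  fun_prop

/-- the polynomial of Mathlib -/
noncomputable def pp (k : ℕ) (e : ℕ → ℝ) : Polynomial ℝ :=
  ∑ j ∈ range (k + 1), Polynomial.C ((-1) ^ j * e j) * Polynomial.X ^ (k - j)

lemma pp_eval (k : ℕ) (e : ℕ → ℝ) (x : ℝ) : (pp k e).eval x = pe k e x := by
  unfold pp pe
  rw [Polynomial.eval_finsetSum]
  refine Finset.sum_congr rfl fun j _ => ?_
  simp

lemma pp_coeff (k : ℕ) (e : ℕ → ℝ) {j : ℕ} (hj : j ≤ k) : (pp k e).coeff (k - j) = (-1) ^ j * e j := by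
  unfold pp
  rw [Polynomial.finsetSum_coeff, Finset.sum_eq_single j]
  · rw [Polynomial.coeff_C_mul, Polynomial.coeff_X_pow, if_pos rfl, mul_one]
  · intro i hi hij
    rw [Finset.mem_range] at hi
    rw [Polynomial.coeff_C_mul, Polynomial.coeff_X_pow, if_neg (by omega), mul_zero]
  · intro h
    exact absurd (Finset.mem_range.mpr (by omega)) h

lemma pp_sub_degree (k : ℕ) (e : ℕ → ℝ) (he : e 0 = 1) :
    (pp k e - Polynomial.X ^ k).degree < ((k : ℕ) : WithBot ℕ) := by
  rw [Polynomial.degree_lt_iff_coeff_zero]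
  intro m hm
  rw [Polynomial.coeff_sub, Polynomial.coeff_X_pow]
  rcases eq_or_lt_of_le hm with h | h
  · have h1 := pp_coeff k e (Nat.zero_le k)
    rw [Nat.sub_zero, he, pow_zero, one_mul] at h1
    rw [← h, h1, if_pos rfl, sub_self]
  · rw [if_neg (by omega), sub_zero]
    unfold pp
    rw [Polynomial.finsetSum_coeff]
    apply Finset.sum_eq_zero
    intro i hi
    rw [Polynomial.coeff_C_mul, Polynomial.coeff_X_pow, if_neg (by omega), mul_zero]

theorem roots : S_ROOTS := by
  intro k hk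
  have hk' : (0 : ℝ) < k := by exact_mod_cast hk
  refine ⟨1 / (2 ^ k * ((k : ℝ) + 1)), by positivity, ?_⟩
  intro e he0 he
  have he' : ∀ j ≤ k, |e j - ac k j| ≤ 1 / (2 ^ k * ((k : ℝ) + 1)) := he
  have hclose : ∀ x : ℝ, |x| ≤ 1 → |pe k e x - ff k x| ≤ 1 / 2 ^ k := by
    intro x hx
    refine (pe_close he' hx).trans (le_of_eq ?_)
    field_simp
  have hpos : ∀ i : ℕ, 0 < (-1) ^ i * pe k e (nd k i) := by
    intro i
    have h1 := hclose _ (nd_abs k i)
    rw [ff_nd hk] at h1
    have h2 : |(-1 : ℝ) ^ i * (pe k e (nd k i) - 2 * (-1) ^ i / 2 ^ k)| ≤ 1 / 2 ^ k := by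
      rw [abs_mul, abs_pow, abs_neg, abs_one, one_pow, one_mul]
      exact h1
    have h3 : (-1 : ℝ) ^ i * (pe k e (nd k i) - 2 * (-1) ^ i / 2 ^ k) =
        (-1) ^ i * pe k e (nd k i) - 2 / 2 ^ k := by
      have h4 : (-1 : ℝ) ^ i * (-1) ^ i = 1 := by rw [← mul_pow]; norm_num
      rw [mul_sub]
      congr 1
      calc (-1 : ℝ) ^ i * (2 * (-1) ^ i / 2 ^ k) = ((-1 : ℝ) ^ i * (-1) ^ i) * (2 / 2 ^ k) := by ring
        _ = 2 / 2 ^ k := by rw [h4, one_mul]
    rw [h3, abs_le] at h2
    have h5 : (0 : ℝ) < 1 / 2 ^ k := by positivity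
    have h6 : (2 : ℝ) / 2 ^ k = 2 * (1 / 2 ^ k) := by ring
    linarith [h2.1]
  have hroot : ∀ i : ℕ, i < k → ∃ m : ℝ, nd k (i + 1) < m ∧ m < nd k i ∧ pe k e m = 0 := by
    intro i hi
    have hlt := nd_lt hk hi
    have hc : ContinuousOn (fun x => (-1 : ℝ) ^ i * pe k e x) (Set.Icc (nd k (i + 1)) (nd k i)) :=
      (continuous_const.mul (pe_cont k e)).continuousOn
    have h1 : (0 : ℝ) ∈ Set.Ioo ((-1 : ℝ) ^ i * pe k e (nd k (i + 1))) ((-1) ^ i * pe k e (nd k i)) := by
      refine ⟨?_, hpos i⟩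
      have := hpos (i + 1)
      rw [pow_succ] at this
      linarith
    obtain ⟨m, hm, hm0⟩ := intermediate_value_Ioo hlt.le hc h1
    refine ⟨m, hm.1, hm.2, ?_⟩
    exact (mul_eq_zero.mp hm0).resolve_left (pow_ne_zero _ (by norm_num))
  choose! r hr1 hr2 hr3 using hroot
  have hanti : ∀ i j : ℕ, i < j → j < k → r j < r i := by
    intro i j hij hj
    calc r j < nd k j := hr2 j hj
      _ ≤ nd k (i + 1) := nd_anti hk (by omega) (by omega)
      _ < r i := hr1 i (by omega)
  let μ : Fin k → ℝ := fun t => r t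
  have hinj : Function.Injective μ := by
    intro s t hst
    by_contra hne
    rcases lt_or_gt_of_ne hne with h | h
    · exact absurd hst (hanti s t h t.isLt).ne'
    · exact absurd hst (hanti t s h s.isLt).ne
  have hprod : pp k e = ∏ t : Fin k, (Polynomial.X - Polynomial.C (μ t)) := by
    apply Polynomial.eq_of_degree_sub_lt_of_eval_finset_eq (univ.image μ)
    · rw [Finset.card_image_of_injective _ hinj, Finset.card_univ, Fintype.card_fin]
      have h1 : (∏ t : Fin k, (Polynomial.X - Polynomial.C (μ t))).Monic :=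
        Polynomial.monic_prod_of_monic _ _ fun t _ => Polynomial.monic_X_sub_C _
      have h2 : (∏ t : Fin k, (Polynomial.X - Polynomial.C (μ t))).natDegree = k := by
        rw [Polynomial.natDegree_prod_of_monic _ _ fun t _ => Polynomial.monic_X_sub_C _]
        simp
      have h3 : (Polynomial.X ^ k - ∏ t : Fin k, (Polynomial.X - Polynomial.C (μ t))).degree < ((k : ℕ) : WithBot ℕ) := by
        rw [Polynomial.degree_lt_iff_coeff_zero]
        intro m hm
        rw [Polynomial.coeff_sub, Polynomial.coeff_X_pow]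
        rcases eq_or_lt_of_le hm with h | h
        · rw [if_pos h.symm, ← h]
          have : (∏ t : Fin k, (Polynomial.X - Polynomial.C (μ t))).coeff k = 1 := by
            have h1' := h1.coeff_natDegree
            rw [h2] at h1'
            exact h1'
          rw [this, sub_self]
        · rw [if_neg (by omega), Polynomial.coeff_eq_zero_of_natDegree_lt (by rw [h2]; exact h), sub_zero]
      have h4 : pp k e - ∏ t : Fin k, (Polynomial.X - Polynomial.C (μ t)) =
          (pp k e - Polynomial.X ^ k) + (Polynomial.X ^ k - ∏ t : Fin k, (Polynomial.X - Polynomial.C (μ t))) := by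
        ring
      rw [h4]
      exact lt_of_le_of_lt (Polynomial.degree_add_le _ _) (max_lt (pp_sub_degree k e he0) h3)
    · intro x hx
      rw [Finset.mem_image] at hx
      obtain ⟨t, _, rfl⟩ := hx
      rw [pp_eval, Polynomial.eval_prod, Finset.prod_eq_zero (Finset.mem_univ t) (by simp)]
      exact hr3 t t.isLt
  refine ⟨μ, ?_, ?_⟩
  · intro t
    rw [abs_le]
    have h1 := hr1 t t.isLt
    have h2 := hr2 t t.isLt
    have h3 := abs_le.mp (nd_abs k (t + 1))
    have h4 := abs_le.mp (nd_abs k t)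
    constructor
    · exact (h3.1.trans h1.le)
    · exact (h2.le.trans h4.2)
  · intro j hj
    have h1 := pp_coeff k e hj
    have h2 : (∏ t : Fin k, (Polynomial.X - Polynomial.C (μ t))) =
        (((univ : Finset (Fin k)).val.map μ).map fun a => Polynomial.X - Polynomial.C a).prod := by
      rw [Multiset.map_map]
      rfl
    have hcard : Multiset.card ((univ : Finset (Fin k)).val.map μ) = k := by simp
    rw [hprod, h2, Multiset.prod_X_sub_C_coeff _ (by rw [hcard]; omega), hcard,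
      show k - (k - j) = j by omega, Finset.esymm_map_val] at h1
    have h3 : (-1 : ℝ) ^ j ≠ 0 := pow_ne_zero _ (by norm_num)
    exact mul_left_cancel₀ h3 h1

end Pool.Agent.Q160.KS
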